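import Pool.Agent.Lib.MP_c702b2_nt.Gap

/-! An unconditional lower bound for the sum of squared gaps between consecutive primes. -/

set_option autoImplicit false

namespace Pool.Agent.Results.MP_c702b2_nt.LowerBound

theorem result : ∀ᶠ x : ℝ in Filter.atTop, 107 / 100 * (x * Real.log x) ≤
    ∑ n ∈ Finset.Ico 1 (Nat.primeCounting ⌊x⌋₊),
      ((Nat.nth Nat.Prime n : ℝ) - (Nat.nth Nat.Prime (n - 1) : ℝ)) ^ 2 :=
  Pool.Agent.Lib.MP_c702b2_nt.main

end Pool.Agent.Results.MP_c702b2_nt.LowerBound
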